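import Pool.Agent.helper17.MK.Spec
import Pool.Agent.helper13.MT.TR3

/-!
# Four clusters, row IN: approximate independence
-/

set_option autoImplicit false

namespace Pool.Agent.MK

open Finset Real Pool.Agent.helper39.MT Pool.Agent.helper85.FC

section
variable {ι : Type} [Fintype ι] [DecidableEq ι] {k : ℕ}

omit [DecidableEq ι] in
theorem IN_W (q : ι → ℝ) (h : ℕ) (τ : ι → Option (Fin k)) :
    (h : ℝ) ^ (supp τ).card * ∏ p ∈ supp τ, q p =
      ∏ r, (if τ r = none then (1 : ℝ) else h * q r) := by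
  rw [← prod_const, ← prod_mul_distrib, supp, prod_filter]
  refine prod_congr rfl fun r _ => ?_
  by_cases h1 : τ r = none
  · simp [h1]
  · simp [h1]

theorem IN_disj (μ : ι → Option (Fin k) → ℝ) (hμ : ∀ p, ∑ x, μ p x = 1)
    (τ τ' : ι → Option (Fin k)) (H : ∀ r, τ r = none ∨ τ' r = none) :
    Ex μ (fun e => ind τ e * ind τ' e) = Ex μ (ind τ) * Ex μ (ind τ') := by
  have h1 : (fun e : ι → Option (Fin k) => ind τ e * ind τ' e) =
      ind (fun r => if τ r = none then τ' r else τ r) := by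
    funext e
    rw [ind, ind, ind, ← prod_mul_distrib]
    refine prod_congr rfl fun r _ => ?_
    rcases H r with h2 | h2
    · simp [h2]
    · by_cases h3 : τ r = none
      · simp [h2, h3]
      · simp [h2, h3]
  rw [h1, TR3.Ex_ind μ hμ, TR3.Ex_ind μ hμ, TR3.Ex_ind μ hμ, ← prod_mul_distrib]
  refine prod_congr rfl fun r _ => ?_
  rcases H r with h2 | h2
  · simp [h2]
  · by_cases h3 : τ r = none
    · simp [h2, h3]
    · simp [h2, h3]

omit [DecidableEq ι] in
theorem IN_zero (τ τ' e : ι → Option (Fin k)) (r : ι) (h1 : τ r ≠ none) (h2 : τ' r ≠ none)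
    (h3 : τ r ≠ τ' r) : ind τ e * ind τ' e = 0 := by
  rw [ind, ind, ← prod_mul_distrib]
  refine prod_eq_zero (mem_univ r) ?_
  rw [if_neg h1, if_neg h2]
  by_cases h4 : e r = τ r
  · rw [if_pos h4, if_neg (fun h5 => h3 (h4.symm.trans h5)), mul_zero]
  · rw [if_neg h4, zero_mul]

theorem IN_Ex_le (μ : ι → Option (Fin k) → ℝ) (q : ι → ℝ) (hμ : ∀ p, ∑ x, μ p x = 1)
    (hq : ∀ p i, 0 ≤ μ p (some i) ∧ μ p (some i) ≤ q p) (τ : ι → Option (Fin k)) :
    0 ≤ Ex μ (ind τ) ∧ Ex μ (ind τ) ≤ ∏ p ∈ supp τ, q p := by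
  rw [TR3.Ex_ind μ hμ, supp, prod_filter]
  constructor
  · refine prod_nonneg fun r _ => ?_
    cases h1 : τ r with
    | none => simp
    | some i => simpa using (hq r i).1
  · refine prod_le_prod (fun r _ => ?_) fun r _ => ?_
    · cases h1 : τ r with
      | none => simp
      | some i => simpa using (hq r i).1
    · cases h1 : τ r with
      | none => simp
      | some i => simpa using (hq r i).2

/-- the sum over the labellings with `p` in the support -/
theorem IN_sum (q : ι → ℝ) (h : ℕ) (p : ι) (M : ℝ) (hM : 0 ≤ M) (hq : ∀ r, 0 ≤ (k : ℝ) * h * q r) :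
    ∑ τ : ι → Option (Fin k), (if τ p = none then 0 else
      M * ((h : ℝ) ^ (supp τ).card * ∏ r ∈ supp τ, q r)) ≤
      M * ((k * h * q p) * ∏ r, (1 + k * h * q r)) := by
  have h1 : ∀ τ : ι → Option (Fin k), (if τ p = none then 0 else
      M * ((h : ℝ) ^ (supp τ).card * ∏ r ∈ supp τ, q r)) =
      M * ∏ r, (if τ r = none then (if r = p then (0 : ℝ) else 1) else h * q r) := by
    intro τ
    by_cases h2 : τ p = none
    · rw [if_pos h2, prod_eq_zero (mem_univ p), mul_zero]
      rw [if_pos h2, if_pos rfl]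
    · rw [if_neg h2, IN_W]
      refine congrArg (fun x => M * x) (prod_congr rfl fun r _ => ?_)
      by_cases h3 : τ r = none
      · rw [if_pos h3, if_pos h3, if_neg]
        rintro rfl
        exact h2 h3
      · rw [if_neg h3, if_neg h3]
  rw [sum_congr rfl fun τ _ => h1 τ, ← mul_sum,
    TR3.sum_pi fun r (t : Option (Fin k)) => if t = none then (if r = p then (0 : ℝ) else 1) else h * q r]
  refine mul_le_mul_of_nonneg_left ?_ hM
  have h2 : ∀ r : ι, ∑ t : Option (Fin k), (if t = none then (if r = p then (0 : ℝ) else 1) else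
      (h : ℝ) * q r) = (if r = p then (0 : ℝ) else 1) + k * h * q r := by
    intro r
    rw [Fintype.sum_option]
    simp [mul_assoc]
  rw [prod_congr rfl fun r _ => h2 r, ← mul_prod_erase univ _ (mem_univ p)]
  have h3 : ∏ r ∈ univ.erase p, ((if r = p then (0 : ℝ) else 1) + k * h * q r) =
      ∏ r ∈ univ.erase p, (1 + k * h * q r) :=
    prod_congr rfl fun r hr => by rw [if_neg (mem_erase.1 hr).1]
  rw [h3, if_pos rfl, zero_add, ← mul_prod_erase univ (fun r => 1 + (k : ℝ) * h * q r) (mem_univ p)]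
  refine mul_le_mul_of_nonneg_left ?_ (hq p)
  have h4 : 0 ≤ ∏ r ∈ univ.erase p, (1 + (k : ℝ) * h * q r) :=
    prod_nonneg fun r _ => by linarith [hq r]
  nlinarith [hq p, mul_nonneg (hq p) h4]

end

/-- Row IN. -/
theorem IN : IN_stmt := by
  intro ι _ _ k pr A A' M M' h h' Y Y' X X' μ q S hμ hq hM hM' HX HX' hA
  obtain ⟨c, hX, hc, hcA⟩ := HX
  obtain ⟨c', hX', hc', hcA'⟩ := HX'
  have hq0 : ∀ (r : ι) (i : Fin k), 0 ≤ q r := fun r i => (hq r i).1.trans (hq r i).2
  have hkq : ∀ (n : ℕ) (r : ι), 0 ≤ (k : ℝ) * n * q r := by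
    intro n r
    rcases Nat.eq_zero_or_pos k with h1 | h1
    · rw [h1]; simp
    · exact mul_nonneg (by positivity) (hq0 r ⟨0, h1⟩)
  have hsq : ∀ τ : ι → Option (Fin k), 0 ≤ ∏ r ∈ supp τ, q r := fun τ =>
    (IN_Ex_le μ q hμ hq τ).1.trans (IN_Ex_le μ q hμ hq τ).2
  -- expansion
  have hEX : Ex μ X = ∑ τ : ι → Option (Fin k), c τ * Ex μ (ind τ) := by
    simp only [Ex, mul_sum]
    rw [sum_comm]
    refine sum_congr rfl fun e _ => ?_
    rw [hX e, mul_sum]
    exact sum_congr rfl fun τ _ => by ring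
  have hEX' : Ex μ X' = ∑ τ : ι → Option (Fin k), c' τ * Ex μ (ind τ) := by
    simp only [Ex, mul_sum]
    rw [sum_comm]
    refine sum_congr rfl fun e _ => ?_
    rw [hX' e, mul_sum]
    exact sum_congr rfl fun τ _ => by ring
  have hEXX : Ex μ (fun e => X e * X' e) = ∑ τ : ι → Option (Fin k), ∑ τ' : ι → Option (Fin k),
      c τ * c' τ' * Ex μ (fun e => ind τ e * ind τ' e) := by
    simp only [Ex, mul_sum]
    have h1 : ∀ e : ι → Option (Fin k), (∏ p, μ p (e p)) * (X e * X' e) =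
        ∑ τ : ι → Option (Fin k), ∑ τ' : ι → Option (Fin k),
          c τ * c' τ' * ((∏ p, μ p (e p)) * (ind τ e * ind τ' e)) := by
      intro e
      rw [hX e, hX' e, sum_mul_sum, mul_sum]
      refine sum_congr rfl fun τ _ => ?_
      rw [mul_sum]
      exact sum_congr rfl fun τ' _ => by ring
    rw [sum_congr rfl fun e _ => h1 e, sum_comm]
    refine sum_congr rfl fun τ _ => ?_
    rw [sum_comm]
  have hdiff : Ex μ (fun e => X e * X' e) - Ex μ X * Ex μ X' =
      ∑ τ : ι → Option (Fin k), ∑ τ' : ι → Option (Fin k),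
        c τ * c' τ' * (Ex μ (fun e => ind τ e * ind τ' e) - Ex μ (ind τ) * Ex μ (ind τ')) := by
    rw [hEXX, hEX, hEX', sum_mul_sum, ← sum_sub_distrib]
    refine sum_congr rfl fun τ _ => ?_
    rw [← sum_sub_distrib]
    exact sum_congr rfl fun τ' _ => by ring
  have hterm : ∀ τ τ' : ι → Option (Fin k),
      |c τ * c' τ' * (Ex μ (fun e => ind τ e * ind τ' e) - Ex μ (ind τ) * Ex μ (ind τ'))| ≤
      ∑ p ∈ S, (if τ p = none then 0 else
        M * ((h : ℝ) ^ (supp τ).card * ∏ r ∈ supp τ, q r)) *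
        (if τ' p = none then 0 else
        M' * ((h' : ℝ) ^ (supp τ').card * ∏ r ∈ supp τ', q r)) := by
    intro τ τ'
    have hnn : ∀ p ∈ S, 0 ≤ (if τ p = none then 0 else
        M * ((h : ℝ) ^ (supp τ).card * ∏ r ∈ supp τ, q r)) *
        (if τ' p = none then 0 else
        M' * ((h' : ℝ) ^ (supp τ').card * ∏ r ∈ supp τ', q r)) := by
      intro p _
      refine mul_nonneg ?_ ?_
      · split_ifs
        · exact le_rfl
        · exact mul_nonneg hM (mul_nonneg (by positivity) (hsq τ))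
      · split_ifs
        · exact le_rfl
        · exact mul_nonneg hM' (mul_nonneg (by positivity) (hsq τ'))
    by_cases h1 : c τ = 0
    · rw [h1]; simpa using sum_nonneg hnn
    by_cases h2 : c' τ' = 0
    · rw [h2]; simpa using sum_nonneg hnn
    by_cases h3 : ∀ r, τ r = none ∨ τ' r = none
    · rw [IN_disj μ hμ τ τ' h3, sub_self, mul_zero, abs_zero]
      exact sum_nonneg hnn
    · push Not at h3
      obtain ⟨p, hp1, hp2⟩ := h3
      obtain ⟨i, hi⟩ := Option.ne_none_iff_exists'.1 hp1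
      obtain ⟨j, hj⟩ := Option.ne_none_iff_exists'.1 hp2
      obtain ⟨hij, hpS⟩ := hA p i j ((hcA τ h1).2 p i hi) ((hcA' τ' h2).2 p j hj)
      have h4 : Ex μ (fun e => ind τ e * ind τ' e) = 0 := by
        rw [Ex]
        refine sum_eq_zero fun e _ => ?_
        rw [IN_zero τ τ' e p hp1 hp2 (by rw [hi, hj]; simpa using hij), mul_zero]
      refine le_trans ?_ (single_le_sum hnn hpS)
      rw [if_neg hp1, if_neg hp2, h4, zero_sub, mul_neg, abs_neg]
      obtain ⟨a1, a2⟩ := IN_Ex_le μ q hμ hq τ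
      obtain ⟨b1, b2⟩ := IN_Ex_le μ q hμ hq τ'
      have h5 : |c τ * c' τ' * (Ex μ (ind τ) * Ex μ (ind τ'))| =
          (|c τ| * Ex μ (ind τ)) * (|c' τ'| * Ex μ (ind τ')) := by
        rw [abs_mul, abs_mul, abs_mul, abs_of_nonneg a1, abs_of_nonneg b1]
        ring
      rw [h5]
      have h6 : |c τ| * Ex μ (ind τ) ≤ M * ((h : ℝ) ^ (supp τ).card * ∏ r ∈ supp τ, q r) := by
        rw [← mul_assoc]
        exact mul_le_mul (hc τ) a2 a1 (mul_nonneg hM (by positivity))
      have h7 : |c' τ'| * Ex μ (ind τ') ≤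
          M' * ((h' : ℝ) ^ (supp τ').card * ∏ r ∈ supp τ', q r) := by
        rw [← mul_assoc]
        exact mul_le_mul (hc' τ') b2 b1 (mul_nonneg hM' (by positivity))
      exact mul_le_mul h6 h7 (mul_nonneg (abs_nonneg _) b1)
        (mul_nonneg hM (mul_nonneg (by positivity) (hsq τ)))
  rw [hdiff]
  have hP : ∀ n : ℕ, 0 ≤ ∏ r, (1 + (k : ℝ) * n * q r) := fun n =>
    prod_nonneg fun r _ => by linarith [hkq n r]
  calc |∑ τ : ι → Option (Fin k), ∑ τ' : ι → Option (Fin k),
        c τ * c' τ' * (Ex μ (fun e => ind τ e * ind τ' e) - Ex μ (ind τ) * Ex μ (ind τ'))|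
      ≤ ∑ τ : ι → Option (Fin k), ∑ τ' : ι → Option (Fin k),
        |c τ * c' τ' * (Ex μ (fun e => ind τ e * ind τ' e) - Ex μ (ind τ) * Ex μ (ind τ'))| :=
        (abs_sum_le_sum_abs _ _).trans (sum_le_sum fun τ _ => abs_sum_le_sum_abs _ _)
    _ ≤ ∑ τ : ι → Option (Fin k), ∑ τ' : ι → Option (Fin k),
        ∑ p ∈ S, (if τ p = none then 0 else
          M * ((h : ℝ) ^ (supp τ).card * ∏ r ∈ supp τ, q r)) *
          (if τ' p = none then 0 else
          M' * ((h' : ℝ) ^ (supp τ').card * ∏ r ∈ supp τ', q r)) :=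
        sum_le_sum fun τ _ => sum_le_sum fun τ' _ => hterm τ τ'
    _ = ∑ p ∈ S, (∑ τ : ι → Option (Fin k), (if τ p = none then 0 else
          M * ((h : ℝ) ^ (supp τ).card * ∏ r ∈ supp τ, q r))) *
          ∑ τ' : ι → Option (Fin k), (if τ' p = none then 0 else
          M' * ((h' : ℝ) ^ (supp τ').card * ∏ r ∈ supp τ', q r)) := by
        have h1 : ∀ τ : ι → Option (Fin k), ∑ τ' : ι → Option (Fin k),
            ∑ p ∈ S, (if τ p = none then 0 else
              M * ((h : ℝ) ^ (supp τ).card * ∏ r ∈ supp τ, q r)) *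
              (if τ' p = none then 0 else
              M' * ((h' : ℝ) ^ (supp τ').card * ∏ r ∈ supp τ', q r)) =
            ∑ p ∈ S, ∑ τ' : ι → Option (Fin k), (if τ p = none then 0 else
              M * ((h : ℝ) ^ (supp τ).card * ∏ r ∈ supp τ, q r)) *
              (if τ' p = none then 0 else
              M' * ((h' : ℝ) ^ (supp τ').card * ∏ r ∈ supp τ', q r)) := fun τ => sum_comm
        rw [sum_congr rfl fun τ _ => h1 τ, sum_comm]
        refine sum_congr rfl fun p _ => ?_
        rw [sum_mul_sum]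
    _ ≤ ∑ p ∈ S, (M * ((k * h * q p) * ∏ r, (1 + k * h * q r))) *
          (M' * ((k * h' * q p) * ∏ r, (1 + k * h' * q r))) := by
        refine sum_le_sum fun p _ => ?_
        refine mul_le_mul (IN_sum q h p M hM (hkq h)) (IN_sum q h' p M' hM' (hkq h')) ?_
          (mul_nonneg hM (mul_nonneg (hkq h p) (hP h)))
        refine sum_nonneg fun τ' _ => ?_
        split_ifs
        · exact le_rfl
        · exact mul_nonneg hM' (mul_nonneg (by positivity) (hsq τ'))
    _ = M * M' * (∏ p, (1 + k * h * q p)) * (∏ p, (1 + k * h' * q p)) *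
          ∑ p ∈ S, (k * h * q p) * (k * h' * q p) := by
        rw [mul_sum]
        exact sum_congr rfl fun p _ => by ring

end Pool.Agent.MK
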